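import Pool.Agent.Lib.MP_f82aec_nt_h17.Roots

/-!
# The number of good sets is a power of two
-/

set_option autoImplicit false

namespace Pool.Agent.MP_f82aec_nt_h17

section

variable {N : ℕ} (hN : Odd N)

/-- The residue `2` as a unit. -/
def two : (ZMod N)ˣ := ZMod.unitOfCoprime 2 (Nat.coprime_two_left.mpr hN)

theorem coe_two : ((two hN : (ZMod N)ˣ) : ZMod N) = 2 := by
  unfold two
  rw [ZMod.coe_unitOfCoprime]
  norm_num

/-- The group generated by `2` and `-1`. -/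
def U : Subgroup (ZMod N)ˣ := Subgroup.closure {two hN, -1}

theorem two_mem : two hN ∈ U hN := Subgroup.subset_closure (by simp)

theorem neg_one_mem : (-1 : (ZMod N)ˣ) ∈ U hN := Subgroup.subset_closure (by simp)

/-- The orbits of the group generated by `2` and `-1`. -/
abbrev Orb := MulAction.orbitRel.Quotient (U hN) (ZMod N)

/-- The orbit of a residue. -/
def mk (x : ZMod N) : Orb hN := Quotient.mk'' x

theorem mk_eq {x y : ZMod N} : mk hN x = mk hN y ↔ ∃ u ∈ U hN, (u : ZMod N) * y = x := by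
  unfold mk
  rw [Quotient.eq'']
  show MulAction.orbitRel (U hN) (ZMod N) x y ↔ _
  rw [MulAction.orbitRel_apply, MulAction.mem_orbit_iff]
  constructor
  · rintro ⟨u, hu⟩
    exact ⟨u.1, u.2, hu⟩
  · rintro ⟨u, hu, h⟩
    exact ⟨⟨u, hu⟩, h⟩

theorem mk_mul {u : (ZMod N)ˣ} (hu : u ∈ U hN) (x : ZMod N) :
    mk hN ((u : ZMod N) * x) = mk hN x := (mk_eq hN).2 ⟨u, hu, rfl⟩

theorem mk_two (x : ZMod N) : mk hN (2 * x) = mk hN x := by
  have := mk_mul hN (two_mem hN) x
  rwa [coe_two] at this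

theorem mk_neg (x : ZMod N) : mk hN (-x) = mk hN x := by
  have := mk_mul hN (neg_one_mem hN) x
  rwa [Units.val_neg, Units.val_one, neg_one_mul] at this

theorem mk_surj (q : Orb hN) : ∃ x, mk hN x = q := by
  induction q using Quotient.inductionOn'
  rename_i x
  exact ⟨x, rfl⟩

theorem mk_eq_zero {x : ZMod N} : mk hN x = mk hN 0 ↔ x = 0 := by
  rw [mk_eq]
  constructor
  · rintro ⟨u, _, h⟩
    rw [← h, mul_zero]
  · rintro rfl
    exact ⟨1, one_mem _, by simp⟩

/-- Invariance under `2` and `-1` is invariance under the group. -/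
theorem inv_iff {B : Set (ZMod N)} (h2 : ∀ x, x ∈ B ↔ 2 * x ∈ B) (h1 : ∀ x, x ∈ B ↔ -x ∈ B)
    {x y : ZMod N} (h : mk hN x = mk hN y) : x ∈ B ↔ y ∈ B := by
  obtain ⟨u, hu, rfl⟩ := (mk_eq hN).1 h
  have key : ∀ u ∈ U hN, ∀ y : ZMod N, (u : ZMod N) * y ∈ B ↔ y ∈ B := by
    intro u hu
    unfold U at hu
    induction hu using Subgroup.closure_induction with
    | mem x hx =>
      intro y
      rcases hx with hx | hx
      · rw [hx, coe_two]
        exact (h2 y).symm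
      · rw [Set.mem_singleton_iff] at hx
        rw [hx, Units.val_neg, Units.val_one, neg_one_mul]
        exact (h1 y).symm
    | one => intro y; rw [Units.val_one, one_mul]
    | mul a b _ _ ha hb =>
      intro y
      rw [Units.val_mul, mul_assoc, ha, hb]
    | inv a _ ha =>
      intro y
      rw [← ha ((a⁻¹ : (ZMod N)ˣ) * y), Units.mul_inv_cancel_left]
  exact key u hu y

include hN in
theorem two_mul_ne {x : ZMod N} : 2 * x ≠ 0 ↔ x ≠ 0 := by
  rw [← coe_two hN]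
  exact not_congr (Units.mul_right_eq_zero _)

/-- The good set attached to a set of nonzero orbits. -/
def AT (A0 : Set (ZMod N)) (T : Set {q : Orb hN // q ≠ mk hN 0}) : Set (ZMod N) :=
  {x | x ≠ 0 ∧ (x ∈ A0 ↔ ¬ ∃ h : mk hN x ≠ mk hN 0, (⟨mk hN x, h⟩ : {q : Orb hN // q ≠ mk hN 0}) ∈ T)}

theorem AT_good {A0 : Set (ZMod N)} (hA0 : A0 ∈ goodSet N) (T : Set {q : Orb hN // q ≠ mk hN 0}) :
    AT hN A0 T ∈ goodSet N := by
  refine ⟨fun h => h.1 rfl, ?_, ?_⟩
  · intro x
    unfold AT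
    simp only [Set.mem_ofPred_eq]
    rw [two_mul_ne hN, ← hA0.2.1 x]
    have e := mk_two hN x
    simp only [e]
  · intro x hx
    unfold AT
    simp only [Set.mem_ofPred_eq]
    have e := mk_neg hN x
    have h0 := hA0.2.2 x hx
    have hx' : -x ≠ 0 := by simpa using hx
    simp only [e]
    tauto

theorem AT_inj {A0 : Set (ZMod N)} : Function.Injective (AT hN A0) := by
  intro T T' h
  ext ⟨q, hq⟩
  obtain ⟨x, rfl⟩ := mk_surj hN q
  have hx : x ≠ 0 := fun h => hq ((mk_eq_zero hN).2 h)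
  have h1 : x ∈ AT hN A0 T ↔ x ∈ AT hN A0 T' := by rw [h]
  unfold AT at h1
  simp only [Set.mem_ofPred_eq] at h1
  constructor
  · intro h2
    by_contra h3
    have e1 : ∃ h : mk hN x ≠ mk hN 0, (⟨mk hN x, h⟩ : {q : Orb hN // q ≠ mk hN 0}) ∈ T :=
      ⟨hq, h2⟩
    have e2 : ¬ ∃ h : mk hN x ≠ mk hN 0, (⟨mk hN x, h⟩ : {q : Orb hN // q ≠ mk hN 0}) ∈ T' :=
      fun ⟨_, h4⟩ => h3 h4
    tauto
  · intro h2
    by_contra h3
    have e1 : ∃ h : mk hN x ≠ mk hN 0, (⟨mk hN x, h⟩ : {q : Orb hN // q ≠ mk hN 0}) ∈ T' :=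
      ⟨hq, h2⟩
    have e2 : ¬ ∃ h : mk hN x ≠ mk hN 0, (⟨mk hN x, h⟩ : {q : Orb hN // q ≠ mk hN 0}) ∈ T :=
      fun ⟨_, h4⟩ => h3 h4
    tauto

theorem AT_surj {A0 A : Set (ZMod N)} (hA0 : A0 ∈ goodSet N) (hA : A ∈ goodSet N) :
    ∃ T, AT hN A0 T = A := by
  set B : Set (ZMod N) := {x | ¬ (x ∈ A ↔ x ∈ A0)} with hB
  have hB2 : ∀ x, x ∈ B ↔ 2 * x ∈ B := by
    intro x
    rw [hB, Set.mem_ofPred_eq, Set.mem_ofPred_eq, ← hA.2.1 x, ← hA0.2.1 x]
  have hB1 : ∀ x, x ∈ B ↔ -x ∈ B := by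
    intro x
    rw [hB, Set.mem_ofPred_eq, Set.mem_ofPred_eq]
    by_cases hx : x = 0
    · rw [hx, neg_zero]
    · have h1 := hA.2.2 x hx
      have h2 := hA0.2.2 x hx
      tauto
  refine ⟨{q | ∃ x, mk hN x = q.1 ∧ x ∈ B}, ?_⟩
  ext x
  unfold AT
  simp only [Set.mem_ofPred_eq]
  have hmem : ∀ h : mk hN x ≠ mk hN 0, (∃ y, mk hN y = mk hN x ∧ y ∈ B) ↔ x ∈ B := by
    intro _
    constructor
    · rintro ⟨y, h1, h2⟩
      exact (inv_iff hN hB2 hB1 h1).1 h2
    · intro h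
      exact ⟨x, rfl, h⟩
  by_cases hx : x = 0
  · subst hx
    constructor
    · intro h
      exact absurd rfl h.1
    · intro h
      exact absurd h hA.1
  · have hq : mk hN x ≠ mk hN 0 := fun h => hx ((mk_eq_zero hN).1 h)
    have e : (∃ _ : mk hN x ≠ mk hN 0, ∃ y, mk hN y = mk hN x ∧ y ∈ B) ↔ x ∈ B :=
      ⟨fun ⟨h, h'⟩ => (hmem h).1 h', fun h => ⟨hq, (hmem hq).2 h⟩⟩
    rw [e, hB, Set.mem_ofPred_eq]
    tauto

/-- The number of good sets is a power of two. -/
theorem card_good [NeZero N] (h : (goodSet N).Nonempty) :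
    (goodSet N).ncard = 2 ^ (Nat.card (Orb hN) - 1) := by
  classical
  obtain ⟨A0, hA0⟩ := h
  have hfin : Finite (Orb hN) := Finite.of_surjective (mk hN) (mk_surj hN)
  have hr : goodSet N = Set.range (AT hN A0) := by
    ext A
    constructor
    · intro hA
      exact AT_surj hN hA0 hA
    · rintro ⟨T, rfl⟩
      exact AT_good hN hA0 T
  have h1 : (goodSet N).ncard = Nat.card (Set {q : Orb hN // q ≠ mk hN 0}) := by
    rw [hr, ← _root_.Nat.card_coe_set_eq]
    exact Nat.card_congr (Equiv.ofInjective _ (AT_inj hN)).symm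
  have : Fintype (Orb hN) := Fintype.ofFinite _
  have h2 : Nat.card {q : Orb hN // q ≠ mk hN 0} = Nat.card (Orb hN) - 1 := by
    rw [Nat.card_eq_fintype_card, Nat.card_eq_fintype_card, Fintype.card_subtype_compl,
      Fintype.card_subtype_eq]
  rw [h1, Nat.card_eq_fintype_card, Fintype.card_set, ← h2, Nat.card_eq_fintype_card]

include hN in
/-- The existence of good sets. -/
theorem good_nonempty [NeZero N] (h : ∀ x : ZMod N, x ≠ 0 → ∀ k : ℕ, (2 : ZMod N) ^ k * x ≠ -x) :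
    (goodSet N).Nonempty := by
  classical
  -- orbits of the powers of two
  let r : Setoid (ZMod N) := MulAction.orbitRel (Subgroup.zpowers (two hN)) (ZMod N)
  let m : ZMod N → Quotient r := fun x => Quotient.mk r x
  have hfin : Finite (Quotient r) := Finite.of_surjective m (fun q => by
    induction q using Quotient.inductionOn
    rename_i x
    exact ⟨x, rfl⟩)
  have hm : ∀ x y : ZMod N, m x = m y ↔ ∃ k : ℕ, (2 : ZMod N) ^ k * y = x := by
    intro x y
    have h1 : m x = m y ↔ r x y := Quotient.eq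
    rw [h1]
    show MulAction.orbitRel (Subgroup.zpowers (two hN)) (ZMod N) x y ↔ _
    rw [MulAction.orbitRel_apply, MulAction.mem_orbit_iff]
    constructor
    · rintro ⟨⟨u, hu⟩, hh⟩
      have hfo : IsOfFinOrder (two hN) := isOfFinOrder_of_finite _
      rw [← hfo.mem_powers_iff_mem_zpowers] at hu
      obtain ⟨k, hk⟩ := hu
      refine ⟨k, ?_⟩
      rw [← hh]
      show _ = (u : ZMod N) * y
      rw [← hk]
      simp [coe_two]
    · rintro ⟨k, hk⟩
      refine ⟨⟨two hN ^ k, ⟨k, by simp⟩⟩, ?_⟩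
      show ((two hN ^ k : (ZMod N)ˣ) : ZMod N) * y = x
      rw [Units.val_pow_eq_pow_val, coe_two]
      exact hk
  have hm2 : ∀ x, m (2 * x) = m x := fun x => (hm _ _).2 ⟨1, by rw [pow_one]⟩
  have hmneg : ∀ x, m (-(2 * x)) = m (-x) := fun x => (hm _ _).2 ⟨1, by rw [pow_one, mul_neg]⟩
  have hne : ∀ x, x ≠ 0 → m x ≠ m (-x) := by
    intro x hx he
    obtain ⟨k, hk⟩ := (hm _ _).1 he.symm
    exact h x hx k hk
  obtain ⟨n, ⟨e⟩⟩ := Finite.exists_equiv_fin (Quotient r)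
  refine ⟨{x | x ≠ 0 ∧ e (m x) < e (m (-x))}, fun h => h.1 rfl, ?_, ?_⟩
  · intro x
    simp only [Set.mem_ofPred_eq]
    rw [two_mul_ne hN, hm2, hmneg]
  · intro x hx
    simp only [Set.mem_ofPred_eq, neg_neg]
    have hx' : -x ≠ 0 := by simpa using hx
    have h1 := hne x hx
    have h2 : e (m x) ≠ e (m (-x)) := fun h => h1 (e.injective h)
    constructor
    · rintro ⟨_, h3⟩ ⟨_, h4⟩
      exact absurd h3 (lt_asymm h4)
    · intro h3
      refine ⟨hx, lt_of_le_of_ne ?_ h2⟩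
      by_contra h4
      exact h3 ⟨hx', not_le.1 h4⟩

/-- If there is a good set, no nonzero residue is opposite to its multiple by a power of two. -/
theorem ne_of_good {A : Set (ZMod N)} (hA : A ∈ goodSet N) (x : ZMod N) (hx : x ≠ 0) (k : ℕ) :
    (2 : ZMod N) ^ k * x ≠ -x := by
  intro h
  have h1 : ∀ k : ℕ, (2 : ZMod N) ^ k * x ∈ A ↔ x ∈ A := by
    intro k
    induction k with
    | zero => rw [pow_zero, one_mul]
    | succ k ih =>
      rw [← ih, pow_succ', mul_assoc]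
      exact (hA.2.1 _).symm
  have h2 := h1 k
  rw [h] at h2
  have h3 := hA.2.2 x hx
  tauto

end

end Pool.Agent.MP_f82aec_nt_h17
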