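import Pool.Agent.Lib.MP_f82aec_nt_h17.Main

/-!
# Lengths with two or four odd sequences, and lengths with a given number of odd sequences
-/

set_option autoImplicit false

namespace Pool.Agent.MP_f82aec_nt_h17

theorem one_mem_pd {N : ℕ} (h : 1 < N) : 1 ∈ N.properDivisors :=
  Nat.mem_properDivisors.2 ⟨one_dvd _, h⟩

theorem card_orb_one {N : ℕ} [NeZero N] (hN : Odd N) (h : 1 < Nat.card (Orb hN)) : 1 < N := by
  by_contra hc
  have h1 := Nat.card_le_card_of_surjective (mk hN) (mk_surj hN)
  rw [Nat.card_zmod] at h1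
  omega

theorem index_pos {N : ℕ} [NeZero N] (hN : Odd N) : 1 ≤ (U hN).index :=
  Nat.pos_of_ne_zero (index_ne_zero hN)

/-- A power of two is never `-1` modulo the prime: the index formula. -/
theorem prime_eq {p : ℕ} (hp : p.Prime) (hp' : Odd p) (h : Odd (orderOf (2 : ZMod p))) :
    p - 1 = 2 * orderOf (2 : ZMod p) * (U hp').index := by
  have : Fact p.Prime := ⟨hp⟩
  have h1 := card_mul_index hp'
  rw [card_U_prime hp' (three_le hp hp') h, Nat.totient_prime hp] at h1
  exact h1.symm

theorem odd_order' {N : ℕ} [NeZero N] (hN : Odd N) (hne : (goodSet N).Nonempty) {p : ℕ}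
    (hp : p.Prime) (hpN : p ∣ N) : Odd (orderOf (2 : ZMod p)) := by
  have : Fact p.Prime := ⟨hp⟩
  have hp' : Odd p := hN.of_dvd_nat hpN
  exact odd_order (by have := three_le hp hp'; omega) (ne_neg_one hne hp hpN)

theorem S_two_iff (n : ℕ) : S n = 2 ↔ ∃ p : ℕ, p.Prime ∧ 2 * n = p + 1 ∧
    Odd (orderOf (2 : ZMod p)) ∧ p = 2 * orderOf (2 : ZMod p) + 1 := by
  constructor
  · intro h
    have hn : 1 ≤ n := by
      rcases Nat.eq_zero_or_pos n with h1 | h1
      · rw [h1, S_zero] at h
        omega
      · exact h1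
    have : NeZero (2 * n - 1) := ⟨by omega⟩
    have h' : S n = 2 ^ 1 := by rw [h, pow_one]
    rw [S_eq_iff hn] at h'
    obtain ⟨hne, hc⟩ := h'
    set N := 2 * n - 1 with hN
    have hNo : Odd N := odd_len hn
    have h1 : 1 < N := card_orb_one hNo (by rw [hc]; omega)
    have h2 : (U hNo).index + N.properDivisors.card ≤ Nat.card (Orb hNo) := index_add_le hNo
    rw [show Nat.card (Orb hNo) = _ from hc] at h2
    have h3 := index_pos hNo
    have h4 : 1 ≤ N.properDivisors.card := Finset.card_pos.2 ⟨1, one_mem_pd h1⟩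
    have h5 : N.properDivisors.card = 1 := by omega
    have h6 : (U hNo).index = 1 := by omega
    have hp : N.Prime := by
      rw [← Nat.properDivisors_eq_singleton_one_iff_prime]
      obtain ⟨a, ha⟩ := Finset.card_eq_one.1 h5
      have := one_mem_pd h1
      rw [ha, Finset.mem_singleton] at this
      rw [ha, this]
    have ho := odd_order' hNo hne hp dvd_rfl
    have h7 := prime_eq hp hNo ho
    rw [h6, mul_one] at h7
    exact ⟨N, hp, by omega, ho, by have := hp.two_le; omega⟩
  · rintro ⟨p, hp, h1, h2, h3⟩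
    have := pow_case hp h2 h3 le_rfl (fun h => absurd h (by omega)) (n := n)
      (by rw [pow_one]; exact h1)
    rwa [pow_one] at this

/-- The order of two modulo a prime is odd only if two is a square. -/
theorem mod_eight {p : ℕ} (hp : p.Prime) (hp2 : p ≠ 2) (h : Odd (orderOf (2 : ZMod p))) :
    p % 8 = 1 ∨ p % 8 = 7 := by
  have : Fact p.Prime := ⟨hp⟩
  rw [← ZMod.exists_sq_eq_two_iff hp2]
  obtain ⟨k, hk⟩ := h
  refine ⟨2 ^ (k + 1), ?_⟩
  rw [← pow_add]
  have : k + 1 + (k + 1) = orderOf (2 : ZMod p) + 1 := by omega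
  rw [this, pow_succ, pow_orderOf_eq_one, one_mul]

theorem S_four_iff (n : ℕ) : S n = 2 ^ 2 ↔ ∃ p : ℕ, p.Prime ∧ 2 * n = p ^ 2 + 1 ∧
    Odd (orderOf (2 : ZMod p)) ∧ p = 2 * orderOf (2 : ZMod p) + 1 ∧
    ¬ p ^ 2 ∣ 2 ^ (p - 1) - 1 := by
  constructor
  · intro h
    have hn : 1 ≤ n := by
      rcases Nat.eq_zero_or_pos n with h1 | h1
      · rw [h1, S_zero] at h
        omega
      · exact h1
    have : NeZero (2 * n - 1) := ⟨by omega⟩
    rw [S_eq_iff hn] at h
    obtain ⟨hne, hc⟩ := h
    set N := 2 * n - 1 with hN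
    have hNo : Odd N := odd_len hn
    have h1 : 1 < N := card_orb_one hNo (by rw [hc]; omega)
    have h2 : (U hNo).index + N.properDivisors.card ≤ Nat.card (Orb hNo) := index_add_le hNo
    rw [show Nat.card (Orb hNo) = _ from hc] at h2
    have h3 := index_pos hNo
    have h4 : 1 ≤ N.properDivisors.card := Finset.card_pos.2 ⟨1, one_mem_pd h1⟩
    by_cases h5 : N.properDivisors.card = 1
    · -- the prime case is impossible
      exfalso
      have hp : N.Prime := by
        rw [← Nat.properDivisors_eq_singleton_one_iff_prime]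
        obtain ⟨a, ha⟩ := Finset.card_eq_one.1 h5
        have := one_mem_pd h1
        rw [ha, Finset.mem_singleton] at this
        rw [ha, this]
      have : Fact N.Prime := ⟨hp⟩
      have h6 : Nat.card (Orb hNo) ≤ (U hNo).index + 1 := card_orb_prime hNo
      rw [show Nat.card (Orb hNo) = _ from hc] at h6
      have h7 : (U hNo).index = 2 := by omega
      have ho := odd_order' hNo hne hp dvd_rfl
      have h8 := prime_eq hp hNo ho
      rw [h7] at h8
      have h9 := mod_eight hp (by have := three_le hp hNo; omega) ho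
      have := hp.two_le
      rcases ho with ⟨k, hk⟩
      omega
    · have h6 : N.properDivisors.card = 2 := by omega
      have h7 : (U hNo).index = 1 := by omega
      set p := N.minFac with hpdef
      have hp : p.Prime := Nat.minFac_prime (by omega)
      have hpN : p ∣ N := Nat.minFac_dvd N
      have hnp : ¬ N.Prime := by
        intro hc
        rw [Nat.properDivisors_eq_singleton_one_iff_prime.2 hc, Finset.card_singleton] at h6
        omega
      have hpd : ∀ m ∈ N.properDivisors, m = 1 ∨ m = p := by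
        intro m hm
        by_contra hcon
        push Not at hcon
        have hpm : p ∈ N.properDivisors := by
          rw [Nat.mem_properDivisors]
          refine ⟨hpN, lt_of_le_of_ne (Nat.le_of_dvd (by omega) hpN) ?_⟩
          intro h
          rw [← h] at hnp
          exact hnp hp
        have hsub : ({1, p, m} : Finset ℕ) ⊆ N.properDivisors := by
          intro x hx
          simp only [Finset.mem_insert, Finset.mem_singleton] at hx
          rcases hx with rfl | rfl | rfl
          · exact one_mem_pd h1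
          · exact hpm
          · exact hm
        have h8 := Finset.card_le_card hsub
        have h9 : ({1, p, m} : Finset ℕ).card = 3 := by
          rw [Finset.card_eq_three]
          exact ⟨1, p, m, hp.one_lt.ne, fun h => hcon.1 h.symm, fun h => hcon.2 h.symm, rfl⟩
        omega
      obtain ⟨m, hm⟩ := hpN
      have hmpd : m ∈ N.properDivisors := by
        rw [Nat.mem_properDivisors]
        refine ⟨⟨p, by rw [hm]; ring⟩, ?_⟩
        have : 1 ≤ m := by
          rcases Nat.eq_zero_or_pos m with h | h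
          · rw [h] at hm
            omega
          · exact h
        have := hp.two_le
        rw [hm]
        nlinarith
      have hmp : m = p := by
        rcases hpd m hmpd with h | h
        · exfalso
          rw [h, mul_one] at hm
          rw [hm] at hnp
          exact hnp hp
        · exact h
      have hNp : N = p ^ 2 := by rw [hm, hmp, sq]
      have hpN : p ∣ N := ⟨m, hm⟩
      have hp' : Odd p := hNo.of_dvd_nat hpN
      have ho := odd_order' hNo hne hp hpN
      have h8 := prime_eq hp hp' ho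
      have h9 := index_dvd hNo hp' hpN
      rw [h7, Nat.dvd_one] at h9
      rw [h9, mul_one] at h8
      refine ⟨p, hp, by omega, ho, by have := hp.two_le; omega, ?_⟩
      intro hW
      have h10 := card_mul_index hNo
      rw [h7, mul_one] at h10
      have h11 := card_U_le hNo
      rw [h10] at h11
      have h12 : (2 : ZMod N) ^ (p - 1) = 1 := by
        have h13 : ((2 ^ (p - 1) - 1 : ℕ) : ZMod N) = 0 := by
          rw [ZMod.natCast_eq_zero_iff, hNp]
          exact hW
        rw [Nat.cast_sub Nat.one_le_two_pow] at h13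
        push_cast at h13
        linear_combination h13
      have h13 : orderOf (two hNo) ≤ p - 1 := by
        rw [order_two]
        refine Nat.le_of_dvd ?_ (orderOf_dvd_of_pow_eq_one h12)
        have := hp.two_le
        omega
      have h14 : N.totient = p * (p - 1) := by
        rw [hNp, Nat.totient_prime_pow hp (by omega)]
        norm_num
      rw [h14] at h11
      have h15 := three_le hp hp'
      have h16 : p * (p - 1) ≤ 2 * (p - 1) := h11.trans (Nat.mul_le_mul_left 2 h13)
      have h17 : p ≤ 2 := Nat.le_of_mul_le_mul_right h16 (by omega)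
      omega
  · rintro ⟨p, hp, h1, h2, h3, h4⟩
    exact pow_case hp h2 h3 (by omega) (fun _ => h4) h1

/-- Bounded index. -/
theorem index_bound {n e : ℕ} (hn : 1 ≤ n) (h : S n = 2 ^ e) {p : ℕ} (hp : p.Prime)
    (hpN : p ∣ 2 * n - 1) : Odd (orderOf (2 : ZMod p)) ∧ p ≤ 2 * e * orderOf (2 : ZMod p) + 1 := by
  have : NeZero (2 * n - 1) := ⟨by omega⟩
  rw [S_eq_iff hn] at h
  obtain ⟨hne, hc⟩ := h
  have hNo := odd_len hn
  have hp' : Odd p := hNo.of_dvd_nat hpN
  have ho := odd_order' hNo hne hp hpN
  refine ⟨ho, ?_⟩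
  have h1 : 1 < 2 * n - 1 := lt_of_lt_of_le hp.one_lt (Nat.le_of_dvd (by omega) hpN)
  have h2 := index_add_le hNo
  rw [hc] at h2
  have h4 : 1 ≤ (2 * n - 1).properDivisors.card := Finset.card_pos.2 ⟨1, one_mem_pd h1⟩
  have h5 := prime_eq hp hp' ho
  have h6 := Nat.le_of_dvd (index_pos hNo) (index_dvd hNo hp' hpN)
  have h7 : (U hp').index ≤ e := by omega
  have h8 : 2 * orderOf (2 : ZMod p) * (U hp').index ≤ 2 * orderOf (2 : ZMod p) * e :=
    Nat.mul_le_mul_left _ h7
  have h9 : 2 * orderOf (2 : ZMod p) * e = 2 * e * orderOf (2 : ZMod p) := by ring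
  have := hp.two_le
  omega

/-- Bounded exponents. -/
theorem exponent_bound {n e : ℕ} (hn : 1 ≤ n) (h : S n = 2 ^ e) {p : ℕ} (hp : p.Prime) :
    (2 * n - 1).factorization p ≤ e := by
  by_contra hcon
  push Not at hcon
  have : NeZero (2 * n - 1) := ⟨by omega⟩
  rw [S_eq_iff hn] at h
  obtain ⟨hne, hc⟩ := h
  have hNo := odd_len hn
  have hdvd : p ^ (e + 1) ∣ 2 * n - 1 :=
    (hp.pow_dvd_iff_le_factorization (by omega)).2 hcon
  have h2 := index_add_le hNo
  rw [hc] at h2
  have h3 := index_pos hNo
  have hsub : (Finset.range (e + 1)).map ⟨fun j => p ^ j, Nat.pow_right_injective hp.two_le⟩ ⊆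
      (2 * n - 1).properDivisors := by
    intro x hx
    rw [Finset.mem_map] at hx
    obtain ⟨j, hj, rfl⟩ := hx
    rw [Finset.mem_range] at hj
    rw [Nat.mem_properDivisors]
    show p ^ j ∣ 2 * n - 1 ∧ p ^ j < 2 * n - 1
    refine ⟨(pow_dvd_pow p (by omega)).trans hdvd, ?_⟩
    calc p ^ j < p ^ (e + 1) := Nat.pow_lt_pow_right hp.one_lt hj
      _ ≤ 2 * n - 1 := Nat.le_of_dvd (by omega) hdvd
  have h4 := Finset.card_le_card hsub
  rw [Finset.card_map, Finset.card_range] at h4
  omega

theorem infinite_primes {e : ℕ} (h : {n | S n = 2 ^ e}.Infinite) :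
    {p : ℕ | p.Prime ∧ Odd (orderOf (2 : ZMod p)) ∧
      p ≤ 2 * e * orderOf (2 : ZMod p) + 1}.Infinite := by
  classical
  intro hfin
  set F := hfin.toFinset with hF
  set M := ∏ p ∈ F, p with hM
  have hM0 : M ≠ 0 := by
    rw [hM, Finset.prod_ne_zero_iff]
    intro p hp
    rw [hF, Set.Finite.mem_toFinset] at hp
    exact hp.1.ne_zero
  refine h ((Set.finite_le_nat (M ^ e + 1)).subset ?_)
  intro n hn
  rw [Set.mem_ofPred_eq] at hn ⊢
  rcases Nat.eq_zero_or_pos n with h0 | h0
  · omega
  have hdvd : 2 * n - 1 ∣ M ^ e := by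
    rw [← Nat.factorization_le_iff_dvd (by omega) (pow_ne_zero _ hM0)]
    intro p
    by_cases hp : p.Prime
    · by_cases hpN : p ∣ 2 * n - 1
      · have h1 := index_bound h0 hn hp hpN
        have h2 := exponent_bound h0 hn hp
        have h3 : p ∣ M := by
          rw [hM]
          apply Finset.dvd_prod_of_mem
          rw [hF, Set.Finite.mem_toFinset]
          exact ⟨hp, h1⟩
        have h4 : 1 ≤ M.factorization p :=
          (hp.dvd_iff_one_le_factorization hM0).1 h3
        rw [Nat.factorization_pow]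
        show _ ≤ e * M.factorization p
        nlinarith
      · rw [Nat.factorization_eq_zero_of_not_dvd hpN]
        exact Nat.zero_le _
    · rw [Nat.factorization_eq_zero_of_not_prime _ hp]
      exact Nat.zero_le _
  have h1 := Nat.le_of_dvd (Nat.pos_of_ne_zero (pow_ne_zero _ hM0)) hdvd
  omega

/-- All cases follow from the case of four odd sequences. -/
theorem all_of_four (h : {n | S n = 2 ^ 2}.Infinite) (e : ℕ) (he : 1 ≤ e) :
    {n | S n = 2 ^ e}.Infinite := by
  set T : Set ℕ := {p | p.Prime ∧ Odd (orderOf (2 : ZMod p)) ∧ p = 2 * orderOf (2 : ZMod p) + 1 ∧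
    ¬ p ^ 2 ∣ 2 ^ (p - 1) - 1} with hT
  have hTinf : T.Infinite := by
    intro hfin
    apply h
    refine (hfin.image fun p => (p ^ 2 + 1) / 2).subset ?_
    intro n hn
    obtain ⟨p, hp, h1, h2, h3, h4⟩ := (S_four_iff n).1 hn
    exact ⟨p, ⟨hp, h2, h3, h4⟩, by show (p ^ 2 + 1) / 2 = n; omega⟩
  have hinj : Set.InjOn (fun p => (p ^ e + 1) / 2) T := by
    intro p hp q hq hpq
    have h1 : Odd (p ^ e) := Odd.pow ⟨_, hp.2.2.1⟩
    have h2 : Odd (q ^ e) := Odd.pow ⟨_, hq.2.2.1⟩
    simp only at hpq
    rcases h1 with ⟨a, ha⟩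
    rcases h2 with ⟨b, hb⟩
    have h3 : p ^ e = q ^ e := by omega
    exact Nat.pow_left_injective (by omega) h3
  refine (hTinf.image hinj).mono ?_
  rintro n ⟨p, hp, rfl⟩
  have h1 : Odd (p ^ e) := Odd.pow ⟨_, hp.2.2.1⟩
  rcases h1 with ⟨a, ha⟩
  refine pow_case hp.1 hp.2.1 hp.2.2.1 he (fun _ => hp.2.2.2) ?_
  show 2 * ((p ^ e + 1) / 2) = p ^ e + 1
  omega

end Pool.Agent.MP_f82aec_nt_h17
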