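import Pool.Agent.Lib.MP_f82aec_nt_h17.Count

/-!
# Orbits and indices
-/

set_option autoImplicit false

namespace Pool.Agent.MP_f82aec_nt_h17

section

variable {N : ℕ} (hN : Odd N)

theorem finite_orb [NeZero N] : Finite (Orb hN) := Finite.of_surjective (mk hN) (mk_surj hN)

theorem addOrderOf_eq {x y : ZMod N} (h : mk hN x = mk hN y) : addOrderOf x = addOrderOf y := by
  obtain ⟨u, _, rfl⟩ := (mk_eq hN).1 h
  have hinj : Function.Injective (AddMonoidHom.mulLeft (u : ZMod N)) := by
    intro a b hab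
    exact u.mul_right_inj.1 hab
  exact addOrderOf_injective (AddMonoidHom.mulLeft (u : ZMod N)) hinj y

theorem addOrderOf_unit [NeZero N] (u : (ZMod N)ˣ) : addOrderOf (u : ZMod N) = N := by
  have h : addOrderOf ((u : ZMod N) * 1) = addOrderOf (1 : ZMod N) := by
    have hinj : Function.Injective (AddMonoidHom.mulLeft (u : ZMod N)) := by
      intro a b hab
      exact u.mul_right_inj.1 hab
    exact addOrderOf_injective (AddMonoidHom.mulLeft (u : ZMod N)) hinj 1
  rw [mul_one] at h
  rw [h, ZMod.addOrderOf_one]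

theorem addOrderOf_div [NeZero N] {d : ℕ} (hd : d ∣ N) :
    addOrderOf ((N / d : ℕ) : ZMod N) = d := by
  have hN0 : N ≠ 0 := NeZero.ne N
  have h1 : N / d ∣ N := Nat.div_dvd_of_dvd hd
  rw [ZMod.addOrderOf_coe _ hN0, Nat.gcd_eq_right h1]
  exact Nat.div_div_self hd hN0

/-- The orbit of a coset of units. -/
noncomputable def qm (q : (ZMod N)ˣ ⧸ U hN) : Orb hN :=
  Quotient.lift (fun u : (ZMod N)ˣ => mk hN (u : ZMod N)) (by
    intro a b hab
    have h : a⁻¹ * b ∈ U hN := QuotientGroup.leftRel_apply.1 hab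
    refine (mk_eq hN).2 ⟨(a⁻¹ * b)⁻¹, inv_mem h, ?_⟩
    rw [← Units.val_mul]
    congr 1
    rw [mul_inv_rev, inv_inv, mul_assoc, mul_comm a b, ← mul_assoc, inv_mul_cancel, one_mul]) q

theorem qm_mk (u : (ZMod N)ˣ) : qm hN (QuotientGroup.mk u) = mk hN (u : ZMod N) := rfl

theorem qm_inj : Function.Injective (qm hN) := by
  intro a b h
  induction a using QuotientGroup.induction_on
  induction b using QuotientGroup.induction_on
  rename_i a b
  rw [qm_mk, qm_mk, mk_eq] at h
  obtain ⟨u, hu, h⟩ := h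
  rw [QuotientGroup.eq]
  have e : u * b = a := Units.ext h
  have e2 : a⁻¹ * b = u⁻¹ := by
    rw [← e, mul_inv_rev, mul_assoc, mul_comm u⁻¹ b, ← mul_assoc, inv_mul_cancel, one_mul]
  rw [e2]
  exact inv_mem hu

theorem index_add_le [NeZero N] :
    (U hN).index + N.properDivisors.card ≤ Nat.card (Orb hN) := by
  classical
  have hfin := finite_orb hN
  let f : ((ZMod N)ˣ ⧸ U hN) ⊕ N.properDivisors → Orb hN :=
    Sum.elim (qm hN) (fun d => mk hN ((N / d.1 : ℕ) : ZMod N))
  have hf : Function.Injective f := by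
    have hu : ∀ (a : (ZMod N)ˣ ⧸ U hN) (d : N.properDivisors),
        qm hN a ≠ mk hN ((N / d.1 : ℕ) : ZMod N) := by
      intro a d h
      induction a using QuotientGroup.induction_on
      rename_i a
      rw [qm_mk] at h
      have h1 := addOrderOf_eq hN h
      have hd := Nat.mem_properDivisors.1 d.2
      rw [addOrderOf_unit, addOrderOf_div hd.1] at h1
      omega
    rintro (a | a) (b | b) h
    · exact congrArg _ (qm_inj hN h)
    · exact absurd h (hu a b)
    · exact absurd h.symm (hu b a)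
    · have h1 := addOrderOf_eq hN h
      have ha := Nat.mem_properDivisors.1 a.2
      have hb := Nat.mem_properDivisors.1 b.2
      rw [addOrderOf_div ha.1, addOrderOf_div hb.1] at h1
      exact congrArg _ (Subtype.ext h1)
  have h := Nat.card_le_card_of_injective f hf
  rw [Nat.card_sum] at h
  have h2 : Nat.card N.properDivisors = N.properDivisors.card := by
    rw [Nat.card_eq_fintype_card, Fintype.card_coe]
  rw [h2] at h
  exact h

/-- For a prime modulus the nonzero orbits are the orbits of the units. -/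
theorem card_orb_prime [Fact N.Prime] : Nat.card (Orb hN) ≤ (U hN).index + 1 := by
  classical
  have : NeZero N := ⟨(Fact.out : N.Prime).ne_zero⟩
  have hfin := finite_orb hN
  let f : Option ((ZMod N)ˣ ⧸ U hN) → Orb hN := fun o => o.elim (mk hN 0) (qm hN)
  have hf : Function.Surjective f := by
    intro q
    obtain ⟨x, rfl⟩ := mk_surj hN q
    by_cases hx : x = 0
    · exact ⟨none, by rw [hx]; rfl⟩
    · refine ⟨some (QuotientGroup.mk (Units.mk0 x hx)), ?_⟩
      have e : f (some (QuotientGroup.mk (Units.mk0 x hx))) =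
        qm hN (QuotientGroup.mk (Units.mk0 x hx)) := rfl
      rw [e, qm_mk, Units.val_mk0]
  have hfq : Finite ((ZMod N)ˣ ⧸ U hN) := inferInstance
  have h := Nat.card_le_card_of_surjective f hf
  rw [Finite.card_option] at h
  exact h

theorem card_U_le [NeZero N] : Nat.card (U hN) ≤ 2 * orderOf (two hN) := by
  classical
  have hsub : ∀ u ∈ U hN, ∃ (k : Fin (orderOf (two hN))) (b : Bool),
      u = two hN ^ (k : ℕ) * (if b then -1 else 1) := by
    have hpos : 0 < orderOf (two hN) := orderOf_pos _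
    have hpow : ∀ k : ℕ, ∃ j : Fin (orderOf (two hN)), two hN ^ k = two hN ^ (j : ℕ) := by
      intro k
      exact ⟨⟨k % orderOf (two hN), Nat.mod_lt _ hpos⟩, (pow_mod_orderOf _ _).symm⟩
    intro u hu
    unfold U at hu
    induction hu using Subgroup.closure_induction with
    | mem x hx =>
      rcases hx with hx | hx
      · obtain ⟨j, hj⟩ := hpow 1
        exact ⟨j, false, by rw [hx, ← hj]; simp⟩
      · rw [Set.mem_singleton_iff] at hx
        obtain ⟨j, hj⟩ := hpow 0
        exact ⟨j, true, by rw [hx, ← hj]; simp⟩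
    | one =>
      obtain ⟨j, hj⟩ := hpow 0
      exact ⟨j, false, by rw [← hj]; simp⟩
    | mul a b _ _ ha hb =>
      obtain ⟨i, s, rfl⟩ := ha
      obtain ⟨j, t, rfl⟩ := hb
      obtain ⟨l, hl⟩ := hpow (i + j)
      refine ⟨l, xor s t, ?_⟩
      rw [← hl, pow_add]
      cases s <;> cases t <;> simp
    | inv a _ ha =>
      obtain ⟨i, s, rfl⟩ := ha
      obtain ⟨l, hl⟩ := hpow (orderOf (two hN) - i)
      refine ⟨l, s, ?_⟩
      have h1 : two hN ^ (orderOf (two hN) - i) = (two hN ^ (i : ℕ))⁻¹ := by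
        rw [pow_sub _ i.2.le, pow_orderOf_eq_one, one_mul]
      rw [← hl, h1]
      cases s <;> simp
  let g : Fin (orderOf (two hN)) × Bool → (ZMod N)ˣ := fun p =>
    two hN ^ (p.1 : ℕ) * (if p.2 then -1 else 1)
  have hg : (U hN : Set (ZMod N)ˣ) ⊆ Set.range g := by
    intro u hu
    obtain ⟨k, b, h⟩ := hsub u hu
    exact ⟨(k, b), h.symm⟩
  have h1 := Set.ncard_le_ncard hg (Set.finite_range g)
  have h2 : (Set.range g).ncard ≤ Nat.card (Fin (orderOf (two hN)) × Bool) := by
    rw [← Set.image_univ]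
    refine (Set.ncard_image_le Set.finite_univ).trans ?_
    rw [Set.ncard_univ]
  have h3 : Nat.card (Fin (orderOf (two hN)) × Bool) = 2 * orderOf (two hN) := by
    rw [Nat.card_prod, Nat.card_eq_fintype_card, Nat.card_eq_fintype_card, Fintype.card_fin,
      Fintype.card_bool, mul_comm]
  rw [h3] at h2
  have h4 : (U hN : Set (ZMod N)ˣ).ncard = Nat.card (U hN) := rfl
  omega

theorem ord_dvd [NeZero N] : orderOf (two hN) ∣ Nat.card (U hN) := by
  have := Subgroup.orderOf_dvd_natCard (U hN) (two_mem hN)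
  exact this

theorem two_dvd [NeZero N] (h : 2 < N) : 2 ∣ Nat.card (U hN) := by
  have h1 := Subgroup.orderOf_dvd_natCard (U hN) (neg_one_mem hN)
  have : Fact (2 < N) := ⟨h⟩
  have h2 : orderOf (-1 : (ZMod N)ˣ) = 2 := by
    rw [orderOf_eq_prime_iff]
    refine ⟨by simp, ?_⟩
    intro h3
    have h4 := congrArg Units.val h3
    rw [Units.val_neg, Units.val_one] at h4
    exact ZMod.neg_one_ne_one h4
  rwa [h2] at h1

theorem card_mul_index [NeZero N] : Nat.card (U hN) * (U hN).index = N.totient := by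
  rw [Subgroup.card_mul_index, Nat.card_eq_fintype_card, ZMod.card_units_eq_totient]

end

end Pool.Agent.MP_f82aec_nt_h17
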