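import Pool.Agent.Lib.MP_f82aec_nt_h17.Index

/-!
# Lengths with few odd sequences
-/

set_option autoImplicit false

namespace Pool.Agent.MP_f82aec_nt_h17

theorem S_zero : S 0 = 1 := by
  unfold S
  have h : oddSet 0 = Set.univ := by
    ext a
    simp only [Set.mem_univ, iff_true]
    intro k hk
    omega
  rw [h, Set.ncard_univ, Nat.card_eq_fintype_card]
  simp

theorem odd_len {n : ℕ} (hn : 1 ≤ n) : Odd (2 * n - 1) := ⟨n - 1, by omega⟩

theorem card_orb_pos {N : ℕ} [NeZero N] (hN : Odd N) : 1 ≤ Nat.card (Orb hN) := by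
  have := finite_orb hN
  have : Nonempty (Orb hN) := ⟨mk hN 0⟩
  exact Nat.card_pos

theorem S_eq_iff {n : ℕ} (hn : 1 ≤ n) (e : ℕ) : S n = 2 ^ e ↔
    (goodSet (2 * n - 1)).Nonempty ∧ Nat.card (Orb (odd_len hn)) = e + 1 := by
  have : NeZero (2 * n - 1) := ⟨by omega⟩
  rw [S_eq n hn]
  have hpos := card_orb_pos (odd_len hn)
  constructor
  · intro h
    have hne : (goodSet (2 * n - 1)).Nonempty := by
      by_contra hc
      rw [Set.not_nonempty_iff_eq_empty] at hc
      rw [hc, Set.ncard_empty] at h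
      have : 0 < 2 ^ e := by positivity
      omega
    refine ⟨hne, ?_⟩
    rw [card_good (odd_len hn) hne] at h
    have := Nat.pow_right_injective le_rfl h
    omega
  · rintro ⟨hne, h⟩
    rw [card_good (odd_len hn) hne, h]
    rfl

/-- No power of two is `-1` modulo a prime divisor. -/
theorem ne_neg_one {N : ℕ} [NeZero N] (hne : (goodSet N).Nonempty) {p : ℕ}
    (hp : p.Prime) (hpN : p ∣ N) (k : ℕ) : (2 : ZMod p) ^ k ≠ -1 := by
  intro h
  obtain ⟨A, hA⟩ := hne
  have hN0 : N ≠ 0 := NeZero.ne N
  have h1 : p ∣ 2 ^ k + 1 := by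
    have h2 : ((2 ^ k + 1 : ℕ) : ZMod p) = 0 := by
      push_cast
      rw [h]
      ring
    exact (ZMod.natCast_eq_zero_iff _ _).1 h2
  have hx : ((N / p : ℕ) : ZMod N) ≠ 0 := by
    intro h2
    have h3 := (ZMod.natCast_eq_zero_iff _ _).1 h2
    have h4 := Nat.div_pos (Nat.le_of_dvd (Nat.pos_of_ne_zero hN0) hpN) hp.pos
    have h5 := Nat.le_of_dvd h4 h3
    have h6 := Nat.div_lt_self (Nat.pos_of_ne_zero hN0) hp.one_lt
    omega
  refine ne_of_good hA _ hx k ?_
  have h3 : (((2 ^ k + 1) * (N / p) : ℕ) : ZMod N) = 0 := by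
    rw [ZMod.natCast_eq_zero_iff]
    obtain ⟨c, hc⟩ := h1
    obtain ⟨m, hm⟩ := hpN
    have h4 : N / p = m := by
      rw [hm]
      exact Nat.mul_div_cancel_left m hp.pos
    rw [h4, hc, hm]
    exact ⟨c, by ring⟩
  push_cast at h3
  linear_combination h3

theorem odd_order {p : ℕ} [Fact p.Prime] (hp2 : p ≠ 2) (h : ∀ k : ℕ, (2 : ZMod p) ^ k ≠ -1) :
    Odd (orderOf (2 : ZMod p)) := by
  rw [← Nat.not_even_iff_odd]
  rintro ⟨j, hj⟩
  have h0 : (2 : ZMod p) ≠ 0 := by
    have := Ring.two_ne_zero (R := ZMod p) (by rwa [ZMod.ringChar_zmod_n])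
    exact this
  have hfin : IsOfFinOrder (2 : ZMod p) := by
    rw [isOfFinOrder_iff_pow_eq_one]
    refine ⟨p - 1, ?_, ZMod.pow_card_sub_one_eq_one h0⟩
    have := (Fact.out : p.Prime).two_le
    omega
  have hpos := hfin.orderOf_pos
  have h1 : ((2 : ZMod p) ^ j) ^ 2 = 1 := by
    rw [← pow_mul, mul_two, ← hj, pow_orderOf_eq_one]
  rw [sq] at h1
  rcases mul_self_eq_one_iff.1 h1 with h2 | h2
  · have h3 := Nat.le_of_dvd (by omega) (orderOf_dvd_of_pow_eq_one h2)
    omega
  · exact h j h2

theorem ne_neg_one_of_odd {p : ℕ} [Fact p.Prime] (hp2 : p ≠ 2)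
    (h : Odd (orderOf (2 : ZMod p))) (k : ℕ) : (2 : ZMod p) ^ k ≠ -1 := by
  intro hk
  have h1 : ((2 : ZMod p) ^ k) ^ orderOf (2 : ZMod p) = 1 := by
    rw [← pow_mul, mul_comm, pow_mul, pow_orderOf_eq_one, one_pow]
  rw [hk, h.neg_one_pow] at h1
  have hp := (Fact.out : p.Prime).two_le
  have : Fact (2 < p) := ⟨by omega⟩
  exact ZMod.neg_one_ne_one h1

theorem order_two {N : ℕ} (hN : Odd N) : orderOf (two hN) = orderOf (2 : ZMod N) := by
  rw [← orderOf_units, coe_two]

theorem map_two {N p : ℕ} (hN : Odd N) (hp : Odd p) (h : p ∣ N) :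
    ZMod.unitsMap h (two hN) = two hp := by
  apply Units.ext
  rw [ZMod.unitsMap_val, coe_two, coe_two]
  exact map_ofNat (ZMod.castHom h (ZMod p)) 2

theorem map_U {N p : ℕ} [NeZero N] (hN : Odd N) (hp : Odd p) (h : p ∣ N) :
    (U hN).map (ZMod.unitsMap h) = U hp := by
  unfold U
  rw [MonoidHom.map_closure]
  congr 1
  rw [Set.image_pair]
  congr 1
  · exact map_two hN hp h
  · congr 1
    apply Units.ext
    rw [ZMod.unitsMap_val, Units.val_neg, Units.val_one, Units.val_neg, Units.val_one]
    exact (map_neg (ZMod.castHom h (ZMod p)) 1).trans (by rw [map_one])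

theorem index_dvd {N p : ℕ} [NeZero N] (hN : Odd N) (hp : Odd p) (h : p ∣ N) :
    (U hp).index ∣ (U hN).index := by
  rw [← map_U hN hp h]
  exact Subgroup.index_map_dvd _ (ZMod.unitsMap_surjective h)

theorem order_dvd {N p : ℕ} (hN : Odd N) (hp : Odd p) (h : p ∣ N) :
    orderOf (two hp) ∣ orderOf (two hN) := by
  rw [← map_two hN hp h]
  exact orderOf_map_dvd _ _

theorem index_ne_zero {N : ℕ} [NeZero N] (hN : Odd N) : (U hN).index ≠ 0 :=
  Subgroup.index_ne_zero_of_finite

/-- The order of the group for a prime modulus. -/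
theorem card_U_prime {p : ℕ} [hp : Fact p.Prime] (hp' : Odd p) (hp3 : 2 < p)
    (h : Odd (orderOf (2 : ZMod p))) : Nat.card (U hp') = 2 * orderOf (2 : ZMod p) := by
  have h1 := card_U_le hp'
  have h2 := ord_dvd hp'
  have h3 := two_dvd hp' hp3
  rw [order_two] at h1 h2
  have h4 : 2 * orderOf (2 : ZMod p) ∣ Nat.card (U hp') :=
    Nat.Coprime.mul_dvd_of_dvd_of_dvd (Nat.coprime_two_left.2 h) h3 h2
  exact le_antisymm h1 (Nat.le_of_dvd Nat.card_pos h4)

theorem three_le {p : ℕ} (hp : p.Prime) (hp' : Odd p) : 2 < p := by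
  have := hp.two_le
  rcases hp' with ⟨k, hk⟩
  omega

/-- The case of prime powers. -/
theorem pow_case {p : ℕ} (hp : p.Prime) (hodd : Odd (orderOf (2 : ZMod p)))
    (hpo : p = 2 * orderOf (2 : ZMod p) + 1) {e : ℕ} (he : 1 ≤ e)
    (hW : 2 ≤ e → ¬ p ^ 2 ∣ 2 ^ (p - 1) - 1) {n : ℕ} (hn : 2 * n = p ^ e + 1) : S n = 2 ^ e := by
  have hfp : Fact p.Prime := ⟨hp⟩
  have hp' : Odd p := ⟨_, hpo⟩
  have hp3 := three_le hp hp'
  have hpe : 1 < p ^ e := Nat.one_lt_pow (by omega) hp.one_lt
  have hn1 : 1 ≤ n := by omega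
  have hN : 2 * n - 1 = p ^ e := by omega
  rw [S_eq_iff hn1]
  have hNo : Odd (p ^ e) := hp'.pow
  have hNZ : NeZero (p ^ e) := ⟨by omega⟩
  have key : (goodSet (p ^ e)).Nonempty ∧ Nat.card (Orb hNo) = e + 1 := by
    constructor
    · apply good_nonempty hNo
      intro x hx k hk
      have h1 : ((2 ^ k + 1 : ℕ) : ZMod (p ^ e)) * x = 0 := by
        push_cast
        linear_combination hk
      have h2 : p ∣ 2 ^ k + 1 := by
        by_contra hc
        have hu : IsUnit ((2 ^ k + 1 : ℕ) : ZMod (p ^ e)) := by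
          rw [ZMod.isUnit_iff_coprime]
          exact Nat.Coprime.pow_right e ((hp.coprime_iff_not_dvd.2 hc).symm)
        exact hx ((hu.mul_right_eq_zero).1 h1)
      have h3 : ((2 ^ k + 1 : ℕ) : ZMod p) = 0 := (ZMod.natCast_eq_zero_iff _ _).2 h2
      push_cast at h3
      exact ne_neg_one_of_odd (by omega) hodd k (by linear_combination h3)
    · -- the index is one
      have hord1 : orderOf (2 : ZMod p) ∣ orderOf (two hNo) := by
        have := order_dvd hNo hp' (dvd_pow_self p (by omega : e ≠ 0))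
        rwa [order_two] at this
      have hord2 : p ^ (e - 1) ∣ orderOf (two hNo) := by
        rcases Nat.lt_or_ge e 2 with h | h
        · have : e - 1 = 0 := by omega
          rw [this, pow_zero]
          exact one_dvd _
        · have hw := hW h
          have h0 : (2 : ZMod p) ≠ 0 := by
            have := Ring.two_ne_zero (R := ZMod p) (by rw [ZMod.ringChar_zmod_n]; omega)
            exact this
          have hd : (p : ℤ) ∣ 2 ^ (p - 1) - 1 := by
            rw [← ZMod.intCast_zmod_eq_zero_iff_dvd] 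
            push_cast
            rw [ZMod.pow_card_sub_one_eq_one h0, sub_self]
          obtain ⟨a, ha⟩ := hd
          have hna : ¬ (p : ℤ) ∣ a := by
            rintro ⟨b, rfl⟩
            apply hw
            have h4 : ((p ^ 2 : ℕ) : ℤ) ∣ ((2 ^ (p - 1) - 1 : ℕ) : ℤ) := by
              rw [Nat.cast_sub Nat.one_le_two_pow]
              push_cast
              rw [ha]
              exact ⟨b, by ring⟩
            exact_mod_cast h4
          have h5 := ZMod.orderOf_one_add_mul_prime hp (by omega) a hna (e - 1)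
          have h6 : e - 1 + 1 = e := by omega
          rw [h6] at h5
          have h7 : (1 + (p : ZMod (p ^ e)) * (a : ZMod (p ^ e))) = 2 ^ (p - 1) := by
            have h8 : ((2 ^ (p - 1) - 1 : ℤ) : ZMod (p ^ e)) = ((p * a : ℤ) : ZMod (p ^ e)) := by
              rw [ha]
            push_cast at h8
            linear_combination -h8
          rw [h7] at h5
          rw [order_two, ← h5]
          exact orderOf_pow_dvd _
      have hcop : Nat.Coprime (orderOf (2 : ZMod p)) (p ^ (e - 1)) := by
        apply Nat.Coprime.pow_right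
        refine Nat.Coprime.symm (hp.coprime_iff_not_dvd.2 fun h => ?_)
        have h1 : 0 < orderOf (2 : ZMod p) := by
          rcases hodd with ⟨k, hk⟩
          omega
        have := Nat.le_of_dvd h1 h
        omega
      have hN2 : 2 < p ^ e := lt_of_lt_of_le hp3 (Nat.le_self_pow (by omega) p)
      have hcard : 2 * (orderOf (2 : ZMod p) * p ^ (e - 1)) ∣ Nat.card (U hNo) := by
        refine Nat.Coprime.mul_dvd_of_dvd_of_dvd ?_ (two_dvd hNo hN2) ?_
        · exact Nat.coprime_two_left.2 (hodd.mul hp'.pow)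
        · exact (Nat.Coprime.mul_dvd_of_dvd_of_dvd hcop hord1 hord2).trans (ord_dvd hNo)
      have htot := card_mul_index hNo
      rw [Nat.totient_prime_pow hp (by omega)] at htot
      have hp1 : p - 1 = 2 * orderOf (2 : ZMod p) := by omega
      rw [hp1] at htot
      obtain ⟨c, hc⟩ := hcard
      have hidx : (U hNo).index = 1 := by
        have h1 : 0 < 2 * (orderOf (2 : ZMod p) * p ^ (e - 1)) := by
          have : 0 < orderOf (2 : ZMod p) := by
            rcases hodd with ⟨k, hk⟩
            omega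
          positivity
        have h2 : 2 * (orderOf (2 : ZMod p) * p ^ (e - 1)) * (c * (U hNo).index) =
            2 * (orderOf (2 : ZMod p) * p ^ (e - 1)) * 1 := by
          rw [← mul_assoc, ← hc, htot]
          ring
        have h3 := Nat.eq_of_mul_eq_mul_left h1 h2
        exact Nat.eq_one_of_mul_eq_one_left h3
      have htop : U hNo = ⊤ := Subgroup.index_eq_one.1 hidx
      have hlow := index_add_le hNo
      have hpd : (p ^ e).properDivisors.card = e := by
        have h1 := congrArg Finset.card (Nat.insert_self_properDivisors (n := p ^ e) (by omega))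
        rw [Finset.card_insert_of_notMem Nat.self_notMem_properDivisors,
          Nat.divisors_prime_pow hp, Finset.card_map, Finset.card_range] at h1
        omega
      rw [hidx, hpd] at hlow
      have hup : Nat.card (Orb hNo) ≤ e + 1 := by
        let f : Fin (e + 1) → Orb hNo := fun j => mk hNo ((p ^ (j : ℕ) : ℕ) : ZMod (p ^ e))
        have hf : Function.Surjective f := by
          intro q
          obtain ⟨x, rfl⟩ := mk_surj hNo q
          by_cases hx : x = 0
          · refine ⟨⟨e, by omega⟩, ?_⟩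
            show mk hNo _ = _
            rw [hx, ZMod.natCast_self]
          · have hv : x.val ≠ 0 := fun h => hx ((ZMod.val_eq_zero x).1 h)
            obtain ⟨j, m, hm, hxm⟩ := Nat.exists_eq_pow_mul_and_not_dvd hv p hp.ne_one
            have hj : j < e := by
              by_contra hc
              have h1 : p ^ e ∣ x.val := by
                rw [hxm]
                exact (pow_dvd_pow p (not_lt.1 hc)).mul_right m
              have h2 := Nat.le_of_dvd (Nat.pos_of_ne_zero hv) h1
              have h3 := ZMod.val_lt x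
              omega
            refine ⟨⟨j, by omega⟩, ?_⟩
            have hcm : Nat.Coprime m (p ^ e) :=
              Nat.Coprime.pow_right e (hp.coprime_iff_not_dvd.2 hm).symm
            show mk hNo ((p ^ j : ℕ) : ZMod (p ^ e)) = mk hNo x
            symm
            rw [mk_eq]
            refine ⟨ZMod.unitOfCoprime m hcm, by rw [htop]; trivial, ?_⟩
            rw [ZMod.coe_unitOfCoprime, ← Nat.cast_mul, mul_comm, ← hxm, ZMod.natCast_zmod_val]
        have h := Nat.card_le_card_of_surjective f hf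
        rwa [Nat.card_fin] at h
      omega
  have gen : ∀ (N : ℕ) (h1 : Odd N) (_ : N = p ^ e),
      (goodSet N).Nonempty ∧ Nat.card (Orb h1) = e + 1 := by
    intro N h1 h2
    subst h2
    exact key
  exact gen _ (odd_len hn1) hN

end Pool.Agent.MP_f82aec_nt_h17
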