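import Mathlib

/-!
# Odd sequences and doubling-invariant sets of residues

For odd `N = 2 n - 1` the odd sequences of length `n ≥ 1` correspond to the sets `A` of nonzero
residues modulo `N` which are invariant under multiplication by `2` and contain exactly one of
`x, -x` for each nonzero `x`.
-/

set_option autoImplicit false

open Polynomial

namespace Pool.Agent.MP_f82aec_nt_h17

/-- The odd sequences of length `n`. -/
def oddSet (n : ℕ) : Set (Fin n → ZMod 2) :=
  {a | ∀ k : ℕ, k < n →
    (∑ i : Fin n, ∑ j : Fin n, (if (j : ℕ) = (i : ℕ) + k then a i * a j else 0)) = 1}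

/-- The number of odd sequences of length `n`. -/
noncomputable def S (n : ℕ) : ℕ := (oddSet n).ncard

/-- The sets of nonzero residues modulo `N` which are invariant under multiplication by `2` and
contain exactly one of `x, -x` for each nonzero `x`. -/
def goodSet (N : ℕ) : Set (Set (ZMod N)) :=
  {A | (0 : ZMod N) ∉ A ∧ (∀ x, x ∈ A ↔ 2 * x ∈ A) ∧ ∀ x, x ≠ 0 → (x ∈ A ↔ -x ∉ A)}

section Poly

variable {n : ℕ}

/-- The polynomial of a sequence. -/
noncomputable def P (a : Fin n → ZMod 2) : (ZMod 2)[X] := ∑ i, C (a i) * X ^ (i : ℕ)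

/-- The reversed polynomial of a sequence. -/
noncomputable def Q (a : Fin n → ZMod 2) : (ZMod 2)[X] := ∑ i : Fin n, C (a i) * X ^ (n - 1 - i)

theorem P_coeff (a : Fin n → ZMod 2) (i : Fin n) : (P a).coeff i = a i := by
  unfold P
  rw [finsetSum_coeff]
  simp only [coeff_C_mul, coeff_X_pow]
  rw [Finset.sum_eq_single i]
  · simp
  · intro j _ hj
    rw [if_neg]
    · simp
    · intro h
      exact hj (Fin.ext h.symm)
  · simp

theorem P_natDegree_lt (hn : 1 ≤ n) (a : Fin n → ZMod 2) : (P a).natDegree < n := by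
  have : (P a).natDegree ≤ n - 1 := by
    apply natDegree_sum_le_of_forall_le
    intro i _
    refine (natDegree_C_mul_X_pow_le _ _).trans ?_
    have := i.2
    omega
  omega

theorem Q_natDegree_le (a : Fin n → ZMod 2) : (Q a).natDegree ≤ n - 1 := by
  apply natDegree_sum_le_of_forall_le
  intro i _
  refine (natDegree_C_mul_X_pow_le _ _).trans ?_
  omega

theorem PQ_eq (a : Fin n → ZMod 2) :
    P a * Q a = ∑ i : Fin n, ∑ j : Fin n, C (a i * a j) * X ^ ((i : ℕ) + (n - 1 - j)) := by
  unfold P Q
  rw [Finset.sum_mul_sum]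
  refine Finset.sum_congr rfl fun i _ => Finset.sum_congr rfl fun j _ => ?_
  rw [C_mul, pow_add]
  ring

theorem PQ_coeff (a : Fin n → ZMod 2) (m : ℕ) :
    (P a * Q a).coeff m =
      ∑ i : Fin n, ∑ j : Fin n, (if m = (i : ℕ) + (n - 1 - j) then a i * a j else 0) := by
  rw [PQ_eq, finsetSum_coeff]
  refine Finset.sum_congr rfl fun i _ => ?_
  rw [finsetSum_coeff]
  refine Finset.sum_congr rfl fun j _ => ?_
  rw [coeff_C_mul, coeff_X_pow]
  split_ifs <;> simp

theorem mem_oddSet_iff (hn : 1 ≤ n) (a : Fin n → ZMod 2) :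
    a ∈ oddSet n ↔ P a * Q a = ∑ m ∈ Finset.range (2 * n - 1), X ^ m := by
  have hc : ∀ m, (∑ m ∈ Finset.range (2 * n - 1), (X : (ZMod 2)[X]) ^ m).coeff m =
      if m < 2 * n - 1 then 1 else 0 := by
    intro m
    rw [finsetSum_coeff]
    simp only [coeff_X_pow]
    rw [Finset.sum_ite_eq]
    simp
  have h1 : ∀ k, k < n → (P a * Q a).coeff (n - 1 - k) =
      ∑ i : Fin n, ∑ j : Fin n, (if (j : ℕ) = (i : ℕ) + k then a i * a j else 0) := by
    intro k hk
    rw [PQ_coeff]
    refine Finset.sum_congr rfl fun i _ => Finset.sum_congr rfl fun j _ => ?_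
    have hi := i.2
    have hj := j.2
    congr 1
    apply propext
    omega
  have h2 : ∀ k, k < n → (P a * Q a).coeff (n - 1 + k) =
      ∑ i : Fin n, ∑ j : Fin n, (if (j : ℕ) = (i : ℕ) + k then a i * a j else 0) := by
    intro k hk
    rw [PQ_coeff, Finset.sum_comm]
    refine Finset.sum_congr rfl fun i _ => Finset.sum_congr rfl fun j _ => ?_
    have hi := i.2
    have hj := j.2
    rw [mul_comm (a j) (a i)]
    congr 1
    apply propext
    omega
  constructor
  · intro h
    ext m
    rw [hc]
    by_cases hm : m < 2 * n - 1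
    · rw [if_pos hm]
      by_cases hm' : m ≤ n - 1
      · have := h1 (n - 1 - m) (by omega)
        rw [show n - 1 - (n - 1 - m) = m by omega] at this
        rw [this]
        exact h _ (by omega)
      · have := h2 (m - (n - 1)) (by omega)
        rw [show n - 1 + (m - (n - 1)) = m by omega] at this
        rw [this]
        exact h _ (by omega)
    · rw [if_neg hm, PQ_coeff]
      refine Finset.sum_eq_zero fun i _ => Finset.sum_eq_zero fun j _ => ?_
      have hi := i.2
      have hj := j.2
      rw [if_neg]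
      omega
  · intro h k hk
    rw [← h2 k hk, h, hc, if_pos (by omega)]

theorem last_eq_one (hn : 1 ≤ n) {a : Fin n → ZMod 2} (ha : a ∈ oddSet n) :
    a ⟨n - 1, by omega⟩ = 1 ∧ a ⟨0, by omega⟩ = 1 := by
  have h := ha (n - 1) (by omega)
  have : (∑ i : Fin n, ∑ j : Fin n, (if (j : ℕ) = (i : ℕ) + (n - 1) then a i * a j else 0)) =
      a ⟨0, by omega⟩ * a ⟨n - 1, by omega⟩ := by
    rw [Finset.sum_eq_single ⟨0, by omega⟩, Finset.sum_eq_single ⟨n - 1, by omega⟩]
    · simp
    · intro j _ hj
      rw [if_neg]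
      intro h
      apply hj
      apply Fin.ext
      simpa using h
    · simp
    · intro i _ hi
      refine Finset.sum_eq_zero fun j _ => ?_
      rw [if_neg]
      intro h
      apply hi
      apply Fin.ext
      have := j.2
      simp only
      omega
    · simp
  rw [this] at h
  have key : ∀ x y : ZMod 2, x * y = 1 → y = 1 ∧ x = 1 := by decide
  exact key _ _ h

end Poly

end Pool.Agent.MP_f82aec_nt_h17
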