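import Pool.Agent.Lib.MP_f82aec_nt_h17.Fin

/-!
# Reduction to prime `2 n - 1`
-/

set_option autoImplicit false

namespace Pool.Agent.MP_f82aec_nt_h17

/-- The number of odd sequences if `2 n - 1` is a prime. -/
theorem S_prime {p n : ℕ} (hp : p.Prime) (ho : Odd (orderOf (2 : ZMod p))) (hn : 2 * n = p + 1) :
    ∃ i : ℕ, 1 ≤ i ∧ p - 1 = 2 * orderOf (2 : ZMod p) * i ∧ S n = 2 ^ i := by
  have hfp : Fact p.Prime := ⟨hp⟩
  have hp' : Odd p := ⟨n - 1, by have := hp.two_le; omega⟩
  have hp3 := three_le hp hp'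
  have hn1 : 1 ≤ n := by omega
  have hN : 2 * n - 1 = p := by omega
  refine ⟨(U hp').index, index_pos hp', prime_eq hp hp' ho, ?_⟩
  rw [S_eq_iff hn1]
  have key : (goodSet p).Nonempty ∧ Nat.card (Orb hp') = (U hp').index + 1 := by
    constructor
    · apply good_nonempty hp'
      intro x hx k hk
      have h1 : ((2 : ZMod p) ^ k + 1) * x = 0 := by linear_combination hk
      rcases mul_eq_zero.1 h1 with h2 | h2
      · exact ne_neg_one_of_odd (by omega) ho k (by linear_combination h2)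
      · exact hx h2
    · have h1 := index_add_le hp'
      rw [Nat.properDivisors_eq_singleton_one_iff_prime.2 hp, Finset.card_singleton] at h1
      exact le_antisymm (card_orb_prime hp') h1
  have gen : ∀ (N : ℕ) (h1 : Odd N) (_ : N = p),
      (goodSet N).Nonempty ∧ Nat.card (Orb h1) = (U hp').index + 1 := by
    intro N h1 h2
    subst h2
    exact key
  exact gen _ (odd_len hn1) hN

/-- If there are infinitely many lengths with exactly `2 ^ e` odd sequences, then for some
`1 ≤ i ≤ e` there are infinitely many lengths `n` with exactly `2 ^ i` odd sequences such that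
`2 n - 1` is a prime. -/
theorem prime_type {e : ℕ} (h : {n | S n = 2 ^ e}.Infinite) :
    ∃ i, 1 ≤ i ∧ i ≤ e ∧ {n | (2 * n - 1).Prime ∧ S n = 2 ^ i}.Infinite := by
  by_contra hcon
  push Not at hcon
  have hfin : (⋃ i ∈ Finset.Icc 1 e, {n | (2 * n - 1).Prime ∧ S n = 2 ^ i}).Finite := by
    apply Set.Finite.biUnion (Finset.finite_toSet _)
    intro i hi
    have hi' := Finset.mem_Icc.1 (Finset.mem_coe.1 hi)
    exact hcon i hi'.1 hi'.2
  apply infinite_primes h
  refine (hfin.image fun n => 2 * n - 1).subset ?_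
  rintro p ⟨hp, ho, hb⟩
  have hp2 : p ≠ 2 := by
    rintro rfl
    have h0 : (2 : ZMod 2) = 0 := by decide
    rw [h0] at ho
    have h1 : orderOf (0 : ZMod 2) = 0 := by
      rw [orderOf_eq_zero_iff, isOfFinOrder_iff_pow_eq_one]
      rintro ⟨k, hk, h2⟩
      rw [zero_pow (by omega)] at h2
      exact absurd h2 (by decide)
    rw [h1] at ho
    exact absurd ho (by decide)
  have hpo := hp.odd_of_ne_two hp2
  obtain ⟨k, hk⟩ := hpo
  obtain ⟨i, hi1, hi2, hi3⟩ := S_prime hp ho (n := k + 1) (by omega)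
  have hpos : 0 < orderOf (2 : ZMod p) := by
    rcases ho with ⟨j, hj⟩
    omega
  have hie : i ≤ e := by
    by_contra hc
    push Not at hc
    have h1 : 2 * orderOf (2 : ZMod p) * (e + 1) ≤ 2 * orderOf (2 : ZMod p) * i :=
      Nat.mul_le_mul_left _ hc
    have h2 : 2 * orderOf (2 : ZMod p) * (e + 1) =
        2 * e * orderOf (2 : ZMod p) + 2 * orderOf (2 : ZMod p) := by ring
    omega
  refine ⟨k + 1, ?_, by show 2 * (k + 1) - 1 = p; omega⟩
  rw [Set.mem_iUnion₂]
  refine ⟨i, Finset.mem_Icc.2 ⟨hi1, hie⟩, ?_, hi3⟩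
  have : 2 * (k + 1) - 1 = p := by omega
  rw [this]
  exact hp

end Pool.Agent.MP_f82aec_nt_h17
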