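import Pool.Agent.Lib.MP_f82aec_nt_h17.Poly

/-!
# The bijection between odd sequences and good sets of residues
-/

set_option autoImplicit false

open Polynomial

namespace Pool.Agent.MP_f82aec_nt_h17

section Roots

variable {n : ℕ}

/-- The evaluation of `Q` in terms of `P`. -/
theorem Q_aeval {K : Type} [Field K] [Algebra (ZMod 2) K] (a : Fin n → ZMod 2)
    (w : K) (hw : w ≠ 0) : aeval w (Q a) = w ^ (n - 1) * aeval w⁻¹ (P a) := by
  unfold P Q
  rw [map_sum, map_sum, Finset.mul_sum]
  refine Finset.sum_congr rfl fun i _ => ?_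
  simp only [map_mul, aeval_C, map_pow, aeval_X]
  have hi : (i : ℕ) ≤ n - 1 := by have := i.2; omega
  rw [inv_pow, pow_sub₀ w hw hi]
  ring

theorem P_aeval_sq {K : Type} [Field K] [Algebra (ZMod 2) K] (f : (ZMod 2)[X]) (w : K) :
    aeval (w ^ 2) f = (aeval w f) ^ 2 := by
  rw [← expand_aeval, ZMod.expand_card, map_pow]

/-- The data of a primitive `N`-th root of unity. -/
structure Rt (N : ℕ) (K : Type) [Field K] [Algebra (ZMod 2) K] where
  z : ZMod N → K
  inj : Function.Injective z
  zero : z 0 = 1
  ne : ∀ x, z x ≠ 0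
  neg : ∀ x, z (-x) = (z x)⁻¹
  dbl : ∀ x, z (2 * x) = z x ^ 2
  geom : ∀ x, x ≠ 0 → ∑ m ∈ Finset.range N, z x ^ m = 0

theorem exists_rt (N : ℕ) (hN : Odd N) :
    Nonempty (Rt N (AlgebraicClosure (ZMod 2))) := by
  classical
  have hN0 : N ≠ 0 := by rintro rfl; simp at hN
  have : NeZero N := ⟨hN0⟩
  have : CharP (AlgebraicClosure (ZMod 2)) 2 :=
    charP_of_injective_algebraMap (FaithfulSMul.algebraMap_injective (ZMod 2) _) 2
  have : NeZero (N : AlgebraicClosure (ZMod 2)) := by
    constructor
    intro h
    rw [CharP.cast_eq_zero_iff (AlgebraicClosure (ZMod 2)) 2] at h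
    rcases hN with ⟨k, rfl⟩
    omega
  obtain ⟨ζ, hζ⟩ := HasEnoughRootsOfUnity.exists_primitiveRoot (AlgebraicClosure (ZMod 2)) N
  have hz0 : ζ ≠ 0 := hζ.ne_zero hN0
  have hpow : ∀ m : ℕ, ζ ^ ((m : ZMod N)).val = ζ ^ m := by
    intro m
    rw [ZMod.val_natCast]
    conv_rhs => rw [← Nat.mod_add_div m N, pow_add, pow_mul, hζ.pow_eq_one, one_pow, mul_one]
  have hadd : ∀ x y : ZMod N, ζ ^ (x + y).val = ζ ^ x.val * ζ ^ y.val := by
    intro x y
    rw [← pow_add, ← hpow (x.val + y.val)]
    congr 2
    push_cast
    simp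
  have hzero : ζ ^ (0 : ZMod N).val = 1 := by simp
  refine ⟨⟨fun x => ζ ^ x.val, ?_, hzero, fun x => pow_ne_zero _ hz0, ?_, ?_, ?_⟩⟩
  · intro x y h
    exact ZMod.val_injective N (hζ.pow_inj (ZMod.val_lt x) (ZMod.val_lt y) h)
  · intro x
    have := hadd x (-x)
    rw [add_neg_cancel, hzero] at this
    exact eq_inv_of_mul_eq_one_right this.symm
  · intro x
    have := hadd x x
    rw [← two_mul] at this
    rw [this, sq]
  · intro x hx
    have h1 : (ζ ^ x.val) ^ N = 1 := by rw [← pow_mul, mul_comm, pow_mul, hζ.pow_eq_one, one_pow]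
    have h2 : ζ ^ x.val ≠ 1 := by
      intro h
      apply hx
      apply ZMod.val_injective N
      apply hζ.pow_inj (ZMod.val_lt x) (ZMod.val_lt 0)
      rw [h, hzero]
    have h3 := mul_neg_geom_sum (ζ ^ x.val) N
    rw [h1, sub_self] at h3
    rcases mul_eq_zero.mp h3 with h | h
    · exact absurd (sub_eq_zero.mp h).symm h2
    · exact h

variable {K : Type} [Field K] [Algebra (ZMod 2) K]

/-- The set of zeros of the polynomial of a sequence. -/
def zs {N : ℕ} (R : Rt N K) (a : Fin n → ZMod 2) : Set (ZMod N) :=
  {x | x ≠ 0 ∧ aeval (R.z x) (P a) = 0}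

theorem card_nonzero {N : ℕ} [NeZero N] :
    (Finset.univ.filter fun x : ZMod N => x ≠ 0).card = N - 1 := by
  rw [Finset.filter_ne', Finset.card_erase_of_mem (Finset.mem_univ _), Finset.card_univ,
    ZMod.card]

theorem zero_or {N : ℕ} (hn : 1 ≤ n) (hN : N = 2 * n - 1) (R : Rt N K) {a : Fin n → ZMod 2}
    (ha : a ∈ oddSet n) (x : ZMod N) (hx : x ≠ 0) :
    aeval (R.z x) (P a) = 0 ∨ aeval (R.z (-x)) (P a) = 0 := by
  have h := (mem_oddSet_iff hn a).mp ha
  have h2 := congrArg (aeval (R.z x)) h
  rw [map_mul, map_sum] at h2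
  simp only [map_pow, aeval_X] at h2
  rw [← hN, R.geom x hx, Q_aeval a _ (R.ne x), ← R.neg] at h2
  rcases mul_eq_zero.mp h2 with h3 | h3
  · exact Or.inl h3
  · rcases mul_eq_zero.mp h3 with h4 | h4
    · exact absurd h4 (pow_ne_zero _ (R.ne x))
    · exact Or.inr h4

theorem P_ne_zero (hn : 1 ≤ n) {a : Fin n → ZMod 2} (ha : a ∈ oddSet n) : P a ≠ 0 := by
  intro h
  have h1 := P_coeff a ⟨n - 1, by omega⟩
  rw [h, (last_eq_one hn ha).1] at h1
  simp at h1

theorem map_natDegree_eq (hn : 1 ≤ n) (a : Fin n → ZMod 2) :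
    ((P a).map (algebraMap (ZMod 2) K)).natDegree < n := by
  rw [natDegree_map]
  exact P_natDegree_lt hn a

open Classical in
theorem zs_good {N : ℕ} (hn : 1 ≤ n) (hN : N = 2 * n - 1) (R : Rt N K) {a : Fin n → ZMod 2}
    (ha : a ∈ oddSet n) : zs R a ∈ goodSet N := by
  have : NeZero N := ⟨by omega⟩
  have hodd : Odd N := ⟨n - 1, by omega⟩
  have h2inj : ∀ x : ZMod N, 2 * x = 0 → x = 0 := by
    intro x hx
    have hu : IsUnit ((2 : ℕ) : ZMod N) := by
      rw [ZMod.isUnit_iff_coprime]
      exact (Nat.coprime_two_left).mpr hodd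
    have hu' : IsUnit (2 : ZMod N) := by simpa using hu
    exact (hu'.mul_right_eq_zero).mp hx
  refine ⟨fun h => h.1 rfl, ?_, ?_⟩
  · intro x
    constructor
    · rintro ⟨h1, h2⟩
      refine ⟨fun h => h1 (h2inj x h), ?_⟩
      rw [R.dbl, P_aeval_sq, h2]
      simp
    · rintro ⟨h1, h2⟩
      refine ⟨fun h => h1 (by rw [h, mul_zero]), ?_⟩
      rw [R.dbl, P_aeval_sq] at h2
      exact pow_eq_zero_iff (two_ne_zero) |>.mp h2
  · -- counting
    set F : Finset (ZMod N) := Finset.univ.filter fun x => x ∈ zs R a with hF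
    set F' : Finset (ZMod N) := F.image (fun x => -x) with hF'
    have hcardF : F.card ≤ n - 1 := by
      by_contra hlt
      push Not at hlt
      have hz : (P a).map (algebraMap (ZMod 2) K) = 0 := by
        apply eq_zero_of_natDegree_lt_card_of_eval_eq_zero' _ (F.image R.z)
        · intro i hi
          rw [Finset.mem_image] at hi
          obtain ⟨x, hx, rfl⟩ := hi
          rw [hF, Finset.mem_filter] at hx
          rw [eval_map_algebraMap]
          exact hx.2.2
        · rw [Finset.card_image_of_injective _ R.inj]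
          have := map_natDegree_eq (K := K) hn a
          omega
      rw [Polynomial.map_eq_zero] at hz
      exact P_ne_zero hn ha hz
    have hcardF' : F'.card = F.card := Finset.card_image_of_injective _ neg_injective
    have hcover : (Finset.univ.filter fun x : ZMod N => x ≠ 0) ⊆ F ∪ F' := by
      intro x hx
      rw [Finset.mem_filter] at hx
      rw [Finset.mem_union]
      rcases zero_or hn hN R ha x hx.2 with h | h
      · left
        rw [hF, Finset.mem_filter]
        exact ⟨Finset.mem_univ _, hx.2, h⟩
      · right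
        rw [hF', Finset.mem_image]
        refine ⟨-x, ?_, by simp⟩
        rw [hF, Finset.mem_filter]
        exact ⟨Finset.mem_univ _, by simpa using hx.2, h⟩
    have hdisj : Disjoint F F' := by
      rw [← Finset.card_union_eq_card_add_card]
      have h1 := Finset.card_le_card hcover
      rw [card_nonzero] at h1
      have h2 := Finset.card_union_le F F'
      omega
    intro x hx
    constructor
    · intro h1 h2
      have : x ∈ F := by rw [hF, Finset.mem_filter]; exact ⟨Finset.mem_univ _, h1⟩
      have h' : x ∈ F' := by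
        rw [hF', Finset.mem_image]
        exact ⟨-x, by rw [hF, Finset.mem_filter]; exact ⟨Finset.mem_univ _, h2⟩, by simp⟩
      exact Finset.disjoint_left.mp hdisj this h'
    · intro h
      refine ⟨hx, ?_⟩
      rcases zero_or hn hN R ha x hx with h1 | h1
      · exact h1
      · exact absurd ⟨by simpa using hx, h1⟩ h

/-- The number of elements of a good set. -/
theorem good_card {N : ℕ} [NeZero N] (hn : 1 ≤ n) (hN : N = 2 * n - 1) (A : Set (ZMod N))
    (hA : A ∈ goodSet N) (F : Finset (ZMod N)) (hF : ∀ x, x ∈ F ↔ x ∈ A) : F.card = n - 1 := by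
  classical
  set F' : Finset (ZMod N) := F.image (fun x => -x) with hF'
  have hcardF' : F'.card = F.card := Finset.card_image_of_injective _ neg_injective
  have h0 : ∀ x, x ∈ F → x ≠ 0 := by
    intro x hx h
    rw [hF, h] at hx
    exact hA.1 hx
  have hdisj : Disjoint F F' := by
    rw [Finset.disjoint_left]
    intro x hx hx'
    rw [hF', Finset.mem_image] at hx'
    obtain ⟨y, hy, rfl⟩ := hx'
    have := (hA.2.2 y (h0 y hy)).mp ((hF y).mp hy)
    exact this ((hF _).mp hx)
  have hun : F ∪ F' = Finset.univ.filter fun x : ZMod N => x ≠ 0 := by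
    ext x
    rw [Finset.mem_union, Finset.mem_filter]
    constructor
    · rintro (h | h)
      · exact ⟨Finset.mem_univ _, h0 x h⟩
      · rw [hF', Finset.mem_image] at h
        obtain ⟨y, hy, rfl⟩ := h
        exact ⟨Finset.mem_univ _, by simpa using h0 y hy⟩
    · rintro ⟨-, hx⟩
      by_cases h : x ∈ A
      · left; exact (hF x).mpr h
      · right
        rw [hF', Finset.mem_image]
        refine ⟨-x, ?_, by simp⟩
        rw [hF]
        by_contra h'
        have := (hA.2.2 x hx)
        exact h (this.mpr h')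
  have := congrArg Finset.card hun
  rw [card_nonzero, Finset.card_union_of_disjoint hdisj, hcardF'] at this
  omega

theorem zs_injOn {N : ℕ} (hn : 1 ≤ n) (hN : N = 2 * n - 1) (R : Rt N K) :
    Set.InjOn (zs (n := n) R) (oddSet n) := by
  classical
  have : NeZero N := ⟨by omega⟩
  intro a ha b hb hab
  have hgood := zs_good hn hN R ha
  set F : Finset (ZMod N) := Finset.univ.filter fun x => x ∈ zs R a with hF
  have hcard := good_card hn hN _ hgood F (by intro x; rw [hF, Finset.mem_filter]; simp)
  have hP : (P a - P b).map (algebraMap (ZMod 2) K) = 0 := by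
    apply eq_zero_of_degree_lt_of_eval_finset_eq_zero (F.image R.z)
    · rw [Finset.card_image_of_injective _ R.inj, hcard, degree_map]
      rw [degree_lt_iff_coeff_zero]
      intro m hm
      rw [coeff_sub]
      by_cases h : m < n
      · have h1 := P_coeff a ⟨m, h⟩
        have h2 := P_coeff b ⟨m, h⟩
        simp only at h1 h2
        rw [h1, h2]
        have hm' : m = n - 1 := by omega
        subst hm'
        rw [(last_eq_one hn ha).1, (last_eq_one hn hb).1, sub_self]
      · rw [coeff_eq_zero_of_natDegree_lt (lt_of_lt_of_le (P_natDegree_lt hn a) (by omega)),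
          coeff_eq_zero_of_natDegree_lt (lt_of_lt_of_le (P_natDegree_lt hn b) (by omega)),
          sub_self]
    · intro i hi
      rw [Finset.mem_image] at hi
      obtain ⟨x, hx, rfl⟩ := hi
      rw [hF, Finset.mem_filter] at hx
      rw [eval_map_algebraMap, map_sub, hx.2.2]
      have : x ∈ zs R b := by rw [← hab]; exact hx.2
      rw [this.2, sub_self]
  rw [Polynomial.map_eq_zero, sub_eq_zero] at hP
  funext i
  rw [← P_coeff a i, ← P_coeff b i, hP]

theorem zmod2_eq_one : ∀ x : ZMod 2, x ≠ 0 → x = 1 := by decide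

theorem zs_surj {N : ℕ} (hn : 1 ≤ n) (hN : N = 2 * n - 1) [CharP K 2] (R : Rt N K)
    (A : Set (ZMod N)) (hA : A ∈ goodSet N) : ∃ a ∈ oddSet n, zs (n := n) R a = A := by
  classical
  have : NeZero N := ⟨by omega⟩
  have : Fact (Nat.Prime 2) := ⟨Nat.prime_two⟩
  have hodd : Odd N := ⟨n - 1, by omega⟩
  set F : Finset (ZMod N) := Finset.univ.filter fun x => x ∈ A with hF
  have hmemF : ∀ x, x ∈ F ↔ x ∈ A := by intro x; rw [hF, Finset.mem_filter]; simp
  have hcard := good_card hn hN _ hA F hmemF
  set f : K[X] := ∏ x ∈ F, (X - C (R.z x)) with hf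
  have hmonic : f.Monic := monic_prod_of_monic _ _ fun x _ => monic_X_sub_C _
  have hdeg : f.natDegree = n - 1 := by
    rw [hf, natDegree_prod_of_monic _ _ fun x _ => monic_X_sub_C _]
    simp [hcard]
  have hfrob : f.map (frobenius K 2) = f := by
    rw [hf, Polynomial.map_prod]
    simp only [Polynomial.map_sub, map_X, map_C, frobenius_def]
    simp only [← R.dbl]
    refine Finset.prod_bij (fun x _ => 2 * x) ?_ ?_ ?_ ?_
    · intro x hx
      rw [hmemF] at hx ⊢
      exact (hA.2.1 x).mp hx
    · intro x _ y _ h
      have hu : IsUnit ((2 : ℕ) : ZMod N) := by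
        rw [ZMod.isUnit_iff_coprime]
        exact (Nat.coprime_two_left).mpr hodd
      have hu' : IsUnit (2 : ZMod N) := by simpa using hu
      exact hu'.mul_left_cancel h
    · intro y hy
      have hu : IsUnit ((2 : ℕ) : ZMod N) := by
        rw [ZMod.isUnit_iff_coprime]
        exact (Nat.coprime_two_left).mpr hodd
      have hu' : IsUnit (2 : ZMod N) := by simpa using hu
      obtain ⟨u, hu2⟩ := hu'
      refine ⟨(↑u⁻¹ : ZMod N) * y, ?_, ?_⟩
      · rw [hmemF] at hy ⊢
        rw [hA.2.1, ← hu2, Units.mul_inv_cancel_left]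
        exact hy
      · rw [← hu2, Units.mul_inv_cancel_left]
    · intro x _
      rfl
  have hlift : f ∈ lifts (algebraMap (ZMod 2) K) := by
    rw [lifts_iff_coeff_lifts]
    intro i
    have h1 := congrArg (fun g => coeff g i) hfrob
    simp only [coeff_map, frobenius_def] at h1
    have h2 : f.coeff i * (f.coeff i - 1) = 0 := by
      rw [mul_sub, mul_one, ← sq, h1, sub_self]
    rcases mul_eq_zero.mp h2 with h3 | h3
    · exact ⟨0, by rw [map_zero, h3]⟩
    · exact ⟨1, by rw [map_one]; exact (sub_eq_zero.mp h3).symm⟩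
  obtain ⟨g, hg⟩ := (mem_lifts _).mp hlift
  have hgmonic : g.Monic := by
    have : Function.Injective (algebraMap (ZMod 2) K) := (algebraMap (ZMod 2) K).injective
    apply monic_of_injective this
    rw [hg]
    exact hmonic
  have hgdeg : g.natDegree = n - 1 := by
    rw [← hdeg, ← hg, natDegree_map]
  set a : Fin n → ZMod 2 := fun i => g.coeff i with ha
  have hPa : P a = g := by
    ext m
    by_cases h : m < n
    · have := P_coeff a ⟨m, h⟩
      simpa [ha] using this
    · rw [coeff_eq_zero_of_natDegree_lt (lt_of_lt_of_le (P_natDegree_lt hn a) (by omega)),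
        coeff_eq_zero_of_natDegree_lt (by omega)]
  have heval : ∀ x, aeval (R.z x) (P a) = 0 ↔ x ∈ A := by
    intro x
    rw [hPa, ← eval_map_algebraMap, hg, hf, eval_prod, Finset.prod_eq_zero_iff]
    constructor
    · rintro ⟨y, hy, h⟩
      rw [eval_sub, eval_X, eval_C, sub_eq_zero] at h
      rw [R.inj h, ← hmemF]
      exact hy
    · intro h
      exact ⟨x, (hmemF x).mpr h, by simp⟩
  have hlast : a ⟨n - 1, by omega⟩ = 1 := by
    rw [ha]
    have := hgmonic.coeff_natDegree
    rw [hgdeg] at this
    exact this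
  have h00 : a ⟨0, by omega⟩ = 1 := by
    have h1 : (P a).coeff 0 ≠ 0 := by
      intro h
      have h2 : f.coeff 0 = 0 := by
        rw [← hg, coeff_map, ← hPa, h, map_zero]
      rw [coeff_zero_eq_eval_zero, hf, eval_prod, Finset.prod_eq_zero_iff] at h2
      obtain ⟨y, _, h3⟩ := h2
      rw [eval_sub, eval_X, eval_C, zero_sub, neg_eq_zero] at h3
      exact R.ne y h3
    have h2 := P_coeff a ⟨0, by omega⟩
    simp only at h2
    rw [h2] at h1
    exact zmod2_eq_one _ h1
  refine ⟨a, ?_, ?_⟩
  · rw [mem_oddSet_iff hn]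
    -- compare both sides
    have hdiff : (P a * Q a - ∑ m ∈ Finset.range (2 * n - 1), X ^ m).map
        (algebraMap (ZMod 2) K) = 0 := by
      apply eq_zero_of_degree_lt_of_eval_finset_eq_zero
        ((Finset.univ.filter fun x : ZMod N => x ≠ 0).image R.z)
      · rw [Finset.card_image_of_injective _ R.inj, card_nonzero, degree_map,
          degree_lt_iff_coeff_zero]
        intro m hm
        rw [coeff_sub]
        have hc : (∑ m ∈ Finset.range (2 * n - 1), (X : (ZMod 2)[X]) ^ m).coeff m =
            if m < 2 * n - 1 then 1 else 0 := by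
          rw [finsetSum_coeff]
          simp only [coeff_X_pow]
          rw [Finset.sum_ite_eq]
          simp
        rw [hc, PQ_coeff]
        by_cases h : m < 2 * n - 1
        · have hm' : m = 2 * (n - 1) := by omega
          rw [if_pos h, sub_eq_zero, Finset.sum_eq_single ⟨n - 1, by omega⟩,
            Finset.sum_eq_single ⟨0, by omega⟩]
          · rw [if_pos, hlast, h00, one_mul]
            simp only
            omega
          · intro j _ hj
            rw [if_neg]
            intro h
            apply hj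
            apply Fin.ext
            have := j.2
            simp only at h ⊢
            omega
          · simp
          · intro i _ hi
            refine Finset.sum_eq_zero fun j _ => ?_
            rw [if_neg]
            intro h
            apply hi
            apply Fin.ext
            have := i.2
            have := j.2
            simp only
            omega
          · simp
        · rw [if_neg h, sub_zero]
          refine Finset.sum_eq_zero fun i _ => Finset.sum_eq_zero fun j _ => ?_
          have hi := i.2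
          have hj := j.2
          rw [if_neg]
          omega
      · intro i hi
        rw [Finset.mem_image] at hi
        obtain ⟨x, hx, rfl⟩ := hi
        rw [Finset.mem_filter] at hx
        rw [eval_map_algebraMap, map_sub, map_mul, map_sum]
        simp only [map_pow, aeval_X]
        rw [← hN, R.geom x hx.2, sub_zero, Q_aeval a _ (R.ne x), ← R.neg]
        by_cases h : x ∈ A
        · rw [(heval x).mpr h, zero_mul]
        · have h' : -x ∈ A := by
            by_contra h'
            exact h ((hA.2.2 x hx.2).mpr h')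
          rw [(heval (-x)).mpr h', mul_zero, mul_zero]
    rw [Polynomial.map_eq_zero, sub_eq_zero] at hdiff
    exact hdiff
  · ext x
    constructor
    · rintro ⟨_, h⟩
      exact (heval x).mp h
    · intro h
      refine ⟨?_, (heval x).mpr h⟩
      rintro rfl
      exact hA.1 h

end Roots

/-- The number of odd sequences is the number of good sets of residues. -/
theorem S_eq (n : ℕ) (hn : 1 ≤ n) : S n = (goodSet (2 * n - 1)).ncard := by
  have : CharP (AlgebraicClosure (ZMod 2)) 2 :=
    charP_of_injective_algebraMap (FaithfulSMul.algebraMap_injective (ZMod 2) _) 2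
  obtain ⟨R⟩ := exists_rt (2 * n - 1) ⟨n - 1, by omega⟩
  have himg : zs (n := n) R '' oddSet n = goodSet (2 * n - 1) := by
    ext A
    constructor
    · rintro ⟨a, ha, rfl⟩
      exact zs_good hn rfl R ha
    · intro hA
      exact zs_surj hn rfl R A hA
  rw [S, ← himg, (zs_injOn hn rfl R).ncard_image]

end Pool.Agent.MP_f82aec_nt_h17
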